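import Pool.Agent.Helper56.TX.MomT
import Pool.Agent.Helper20.TX.SqTail
import Pool.Agent.Helper53.TX.Far0
import Pool.Agent.Helper57.TX.Master
import Pool.Agent.Helper7.TX.Var
import Pool.Agent.Helper64.TX.Var
import Pool.Agent.Helper25.TX.SsPt
import Pool.Agent.Helper17.TX.Expand
import Pool.Agent.Helper87.TX.Good
import Pool.Agent.Helper96.TX.Tx2
import Pool.Agent.Helper9.TX.Tx1
import Pool.Agent.Helper49.TX.Point4

/-!
# TX: assembly of part (c)
-/

set_option autoImplicit false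
open MeasureTheory Set Filter Topology
open Pool.Agent.Helper57.Zeta Pool.Agent.Helper57.LH Pool.Agent.Helper57.ED
open Pool.Agent.Helper54.LG (za zb qk SS MM)
open Pool.Agent.Helper93.UG (zc sp)
open Pool.Agent.Helper69.UG (XX near far)
open Pool.Agent.Helper49.SO (Sn DS kX Pr)
open Pool.Agent.Helper57.TX

namespace Pool.Agent.Helper24.TX

/-- A12 -/
theorem master : ∃ C κ M₀ T₀ : ℝ, 0 < C ∧ 0 < κ ∧ 1 ≤ M₀ ∧ ∀ T c M : ℝ, T₀ ≤ T → 1 ≤ c →
    c * Real.log (Real.log T) ≤ Real.log T → M₀ ≤ M → M ≤ Real.log T →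
    ∀ (V : ℝ) (k : ℕ), 0 < V → (k : ℝ) ≤ M / 8 →
    volume {t : ℝ | T / 2 ≤ t ∧ t ≤ 3 * T ∧ V + C * M ≤ |(zc (Ico t (t + c * sp T)) : ℝ) - c|} ≤
      ENNReal.ofReal ((C * Real.exp (-(κ * M)) +
        C * (k.factorial * (2 / Real.pi ^ 2 * (Real.log c + C) / V ^ 2) ^ k)) * T) :=
  master_of Pool.Agent.Helper56.TX.mom_tail Pool.Agent.Helper7.TX.var_ra
    (Pool.Agent.Helper20.TX.sq_tail_of Pool.Agent.Helper56.TX.mom_tail Pool.Agent.Helper64.TX.var_rb)
    Pool.Agent.Helper57.TX.expand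
    (Pool.Agent.Helper87.TX.good_of Pool.Agent.Helper49.TX.sharp_pt4 Pool.Agent.Helper53.TX.far0
      (Pool.Agent.Helper20.TX.ss_tail_of Pool.Agent.Helper56.TX.mom_tail Pool.Agent.Helper64.TX.var_rs
        Pool.Agent.Helper25.TX.ss_pt))

/-- A13: sharp upper bound -/
theorem tx2 : Pool.Agent.Helper93.UX.TX2 := Pool.Agent.Helper96.TX.tx2_of master

/-- A14: moments -/
theorem tx1 : Pool.Agent.Helper93.UX.TX1 := Pool.Agent.Helper9.TX.tx1_of master

end Pool.Agent.Helper24.TX
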